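import Pool.Agent.helper95.DP.SpecH

namespace DP

open MeasureTheory ProbabilityTheory Filter Topology

theorem HMS_set (k : ℕ) : MeasurableSet {p : ℝ × (ℕ → ℝ) | rt p.2 (k + 1) ≤ p.1} := by
  refine measurableSet_le ?_ measurable_fst
  unfold rt
  refine Finset.measurable_sum _ fun i _ => ?_
  exact (measurable_pi_apply i).comp measurable_snd

/-- The set is equal to a finite set. -/
theorem HMS_eq (S : Finset ℕ) :
    MeasurableSet {p : ℝ × (ℕ → ℝ) | {k : ℕ | rt p.2 (k + 1) ≤ p.1} = (S : Set ℕ)} := by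
  have h : {p : ℝ × (ℕ → ℝ) | {k : ℕ | rt p.2 (k + 1) ≤ p.1} = (S : Set ℕ)} =
      ⋂ k : ℕ, {p : ℝ × (ℕ → ℝ) | rt p.2 (k + 1) ≤ p.1 ↔ k ∈ S} := by
    ext p
    simp only [Set.mem_setOf_eq, Set.mem_iInter, Set.ext_iff, Finset.mem_coe]
  rw [h]
  refine MeasurableSet.iInter fun k => ?_
  by_cases hk : k ∈ S
  · simpa [hk] using HMS_set k
  · have h2 : {p : ℝ × (ℕ → ℝ) | rt p.2 (k + 1) ≤ p.1 ↔ k ∈ S} =
        {p : ℝ × (ℕ → ℝ) | rt p.2 (k + 1) ≤ p.1}ᶜ := by
      ext p
      simp [hk]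
    rw [h2]
    exact (HMS_set k).compl

theorem HMS_cnt : Measurable (fun p : ℝ × (ℕ → ℝ) => cnt p.2 p.1) := by
  have hne : ∀ n : ℕ, n ≠ 0 →
      MeasurableSet ((fun p : ℝ × (ℕ → ℝ) => cnt p.2 p.1) ⁻¹' {n}) := by
    intro n hn
    have h : ((fun p : ℝ × (ℕ → ℝ) => cnt p.2 p.1) ⁻¹' {n}) =
        ⋃ S : {S : Finset ℕ // S.card = n},
          {p : ℝ × (ℕ → ℝ) | {k : ℕ | rt p.2 (k + 1) ≤ p.1} = (S.1 : Set ℕ)} := by
      ext p
      simp only [Set.mem_preimage, Set.mem_singleton_iff, Set.mem_iUnion, Set.mem_setOf_eq]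
      constructor
      · intro hp
        have hp' : {k : ℕ | rt p.2 (k + 1) ≤ p.1}.ncard = n := hp
        have hfin : {k : ℕ | rt p.2 (k + 1) ≤ p.1}.Finite :=
          Set.finite_of_ncard_ne_zero (by rw [hp']; exact hn)
        refine ⟨⟨hfin.toFinset, ?_⟩, by simp⟩
        rw [← Set.ncard_eq_toFinset_card _ hfin]
        exact hp'
      · rintro ⟨S, hS⟩
        show {k : ℕ | rt p.2 (k + 1) ≤ p.1}.ncard = n
        rw [hS, Set.ncard_coe_finset]
        exact S.2
    rw [h]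
    exact MeasurableSet.iUnion fun S => HMS_eq S.1
  refine measurable_to_countable' fun n => ?_
  by_cases hn : n = 0
  · subst hn
    have h : ((fun p : ℝ × (ℕ → ℝ) => cnt p.2 p.1) ⁻¹' {0}) =
        (⋃ n : ℕ, ((fun p : ℝ × (ℕ → ℝ) => cnt p.2 p.1) ⁻¹' {n + 1}))ᶜ := by
      ext p
      simp only [Set.mem_preimage, Set.mem_singleton_iff, Set.mem_compl_iff, Set.mem_iUnion,
        not_exists]
      constructor
      · intro h0 i hi
        omega
      · intro h1
        by_contra h2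
        obtain ⟨k, hk⟩ := Nat.exists_eq_succ_of_ne_zero h2
        exact h1 k hk
    rw [h]
    exact (MeasurableSet.iUnion fun n => hne (n + 1) (Nat.succ_ne_zero n)).compl
  · exact hne n hn

theorem HMS : HMS_stmt := by
  refine ⟨HMS_cnt, ?_⟩
  have hc : Measurable (fun p : ℝ × Path => cnt p.2.1 p.1) :=
    HMS_cnt.comp (measurable_fst.prodMk (measurable_fst.comp measurable_snd))
  refine measurable_to_countable' fun b => ?_
  have h : ((fun p : ℝ × Path => st p.2 p.1) ⁻¹' {b}) =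
      ⋃ k : ℕ, ({p : ℝ × Path | cnt p.2.1 p.1 = k} ∩ {p : ℝ × Path | p.2.2 k = b}) := by
    ext p
    simp only [Set.mem_preimage, Set.mem_singleton_iff, Set.mem_iUnion, Set.mem_inter_iff,
      Set.mem_setOf_eq]
    constructor
    · intro hp
      exact ⟨_, rfl, hp⟩
    · rintro ⟨k, h1, h2⟩
      show p.2.2 (cnt p.2.1 p.1) = b
      rw [h1]; exact h2
  rw [h]
  refine MeasurableSet.iUnion fun k => MeasurableSet.inter ?_ ?_
  · exact hc (measurableSet_singleton k)
  · have h3 : Measurable (fun p : ℝ × Path => p.2.2 k) :=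
      (measurable_pi_apply k).comp (measurable_snd.comp measurable_snd)
    exact h3 (measurableSet_singleton b)

end DP
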