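import Pool.Agent.helper95.DP.SpecH

namespace DP

open MeasureTheory ProbabilityTheory Filter Topology

theorem HRC_rt_succ (x : ℕ → ℝ) (k : ℕ) : rt x (k + 1) = rt x k + x k :=
  Finset.sum_range_succ _ _

theorem HRC_rt_mono {x : ℕ → ℝ} (hx : GoodT x) : Monotone (rt x) :=
  monotone_nat_of_le_succ fun k => by
    rw [HRC_rt_succ]; linarith [hx.1 k]

theorem HRC (hCN : HCN_stmt) : HRC_stmt := by
  intro x hx
  constructor
  · intro t ht
    obtain ⟨h1, h2⟩ := (hCN x hx t ht (cnt x t)).1 rfl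
    refine ⟨rt x (cnt x t + 1) - t, by linarith, fun s hs1 hs2 => ?_⟩
    exact (hCN x hx s (by linarith) (cnt x t)).2 ⟨by linarith, by linarith⟩
  · intro t ht
    obtain ⟨h1, h2⟩ := (hCN x hx t ht.le (cnt x t)).1 rfl
    rcases h1.lt_or_eq with h | h
    · refine ⟨t - rt x (cnt x t), by linarith, cnt x t, fun s hs0 hs1 hs2 => ?_, fun _ => rfl⟩
      exact (hCN x hx s hs0 (cnt x t)).2 ⟨by linarith, by linarith⟩
    · have h0 : rt x 0 = 0 := by simp [rt]
      have hk : cnt x t ≠ 0 := by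
        intro h3
        rw [h3, h0] at h
        linarith
      obtain ⟨k, hk'⟩ := Nat.exists_eq_succ_of_ne_zero hk
      rw [hk'] at h
      have h3 : rt x (k + 1) = rt x k + x k := HRC_rt_succ x k
      have h4 : rt x (k + 1) = t := h
      refine ⟨x k, hx.1 k, k, fun s hs0 hs1 hs2 => ?_, fun h5 => absurd h4 (h5 k)⟩
      exact (hCN x hx s hs0 k).2 ⟨by linarith, by linarith⟩

end DP
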