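import Pool.Agent.helper96.DP.SpecD
import Pool.Agent.helper96.DP.Basic

/-!
# Project dp, module MA: several crossing clusters
-/

namespace DP

open MeasureTheory

/-- crossing sets of sites -/
def MA_D (J : Set V) (y : V) (R : ℕ) (L : Finset V) : Set (Finset V) :=
  {K | K ⊆ L ∧ ∃ u ∈ J, ∃ z, sd y z = R ∧ Con (K : Set V) u z}

/-- unions of `t` disjoint crossing sets -/
def MA_U (J : Set V) (y : V) (R : ℕ) (L : Finset V) : ℕ → Set (Finset V)
  | 0 => {∅}
  | t + 1 => {M | ∃ K ∈ MA_D J y R L, ∃ K' ∈ MA_U J y R L t, Disjoint K K' ∧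
      ∀ v, v ∈ M ↔ v ∈ K ∨ v ∈ K'}

theorem MA_U_sub (J : Set V) (y : V) (R : ℕ) (L : Finset V) (t : ℕ) :
    ∀ K ∈ MA_U J y R L t, K ⊆ L := by
  induction t with
  | zero =>
    intro K hK
    have : K = ∅ := hK
    rw [this]; exact Finset.empty_subset _
  | succ t ih =>
    rintro M ⟨K, hK, K', hK', -, hM⟩ v hv
    rcases (hM v).1 hv with h | h
    · exact hK.1 h
    · exact ih K' hK' h

theorem MA_P1 : IsProbabilityMeasure P1 := by
  unfold P1
  infer_instance

theorem MA_Pr_mono {F G : Set (V → Bool)} (h : F ⊆ G) : Pr F ≤ Pr G := by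
  haveI := MA_P1
  unfold Pr
  exact measureReal_mono h (measure_ne_top _ _)

theorem MA_meas {F : Set (V → Bool)} {L : Finset V} (h : Dep F (L : Set V)) :
    MeasurableSet F := by
  have e : F = (fun (b : V → Bool) (v : L) => b v) ⁻¹' {g | ∃ b ∈ F, ∀ v : L, b v = g v} := by
    ext b
    constructor
    · intro hb
      exact ⟨b, hb, fun _ => rfl⟩
    · rintro ⟨b', hb', h'⟩
      refine (h b' b fun v hv => ?_).1 hb'
      exact h' ⟨v, hv⟩
  rw [e]
  apply MeasurableSet.preimage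
  · exact (Set.toFinite _).measurableSet
  · exact measurable_pi_lambda _ fun v => measurable_pi_apply _

theorem MA_loop_congr {c c' : V → Bool} {k : Bool} {g : V} {l : ℕ} {S : Set V}
    (h : ∀ v ∈ box g (3 * l), c v = c' v) (hS : Loop c k g l S) : Loop c' k g l S := by
  obtain ⟨p, u, h1, h2, h3⟩ := hS
  refine ⟨p, u, h1.mono ?_, h2, h3⟩
  rintro v ⟨h4, h5, h6⟩
  exact ⟨h4, h5, by rw [← h v h5.le]; exact h6⟩

theorem MA_loop_loc (k : Bool) (g : V) (l : ℕ) :
    Loc (Ev fun c => ∃ S, Loop c k g l S) (box g (3 * l)) := by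
  apply Loc.ev (box_finite g (3 * l))
  intro c c' h
  constructor
  · rintro ⟨S, hS⟩
    exact ⟨S, MA_loop_congr h hS⟩
  · rintro ⟨S, hS⟩
    exact ⟨S, MA_loop_congr (fun v hv => (h v hv).symm) hS⟩

theorem MA_cluster {W : Set V} {u v : V} (h : Con W u v) : Con {w | Con W u w} u v := by
  refine Con.induct h (fun a => Con {w | Con W u w} u a) (Con.refl (Con.refl h.1)) ?_
  intro a b _ hb hab hua ha
  exact ha.tail hab (hua.tail hab hb)

theorem MA_one (hLH : LH_stmt) (c₀ : ℝ) (l R : ℕ) (y : V) (k : Bool) (J : Set V) (L : Finset V)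
    (hc : ∀ k' g, c₀ ≤ Pr (Ev fun c => ∃ S, Loop c k' g l S)) (hJ : J ⊆ box y l)
    (hR : 3 * l ≤ R) :
    Pr (Ev fun c => ∃ K ∈ MA_D J y R L, ∀ v ∈ K, c v = k) ≤ 1 - c₀ := by
  obtain ⟨M, -, hM⟩ := MA_loop_loc (!k) y l
  have hmeas := MA_meas hM
  have hsub : (Ev fun c => ∃ K ∈ MA_D J y R L, ∀ v ∈ K, c v = k) ⊆
      (Ev fun c => ∃ S, Loop c (!k) y l S)ᶜ := by
    rintro b ⟨K, ⟨-, u, hu, z, hz, hcon⟩, hK⟩ ⟨S, hS⟩
    have hcon' : Con {v | col b v = k} u z := hcon.mono fun v hv => hK v hv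
    obtain ⟨w, hw, hcw⟩ := hLH (col b) (!k) y l S hS {v | col b v = k} u z hcon' (hJ hu)
      (by omega)
    have h1 : col b w = k := hcw.mem_right
    obtain ⟨p, u', h2, -, h3⟩ := hS
    rw [h3] at hw
    have h4 : col b w = !k := (h2.2.2.2 w hw).2.2
    rw [h1] at h4
    cases k <;> simp at h4
  have h1 : Pr (Ev fun c => ∃ K ∈ MA_D J y R L, ∀ v ∈ K, c v = k) ≤
      Pr (Ev fun c => ∃ S, Loop c (!k) y l S)ᶜ := MA_Pr_mono hsub
  have h2 : Pr (Ev fun c => ∃ S, Loop c (!k) y l S)ᶜ =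
      1 - Pr (Ev fun c => ∃ S, Loop c (!k) y l S) := by
    haveI := MA_P1
    unfold Pr
    exact probReal_compl_eq_one_sub hmeas
  have h3 := hc (!k) y
  linarith

theorem MA_pow (hB : Bbk_stmt) (y : V) (R : ℕ) (k : Bool) (J : Set V) (L : Finset V) (t : ℕ) :
    Pr (Ev fun c => ∃ M ∈ MA_U J y R L t, ∀ v ∈ M, c v = k) ≤
      Pr (Ev fun c => ∃ K ∈ MA_D J y R L, ∀ v ∈ K, c v = k) ^ t := by
  induction t with
  | zero =>
    rw [pow_zero]
    haveI := MA_P1
    unfold Pr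
    exact measureReal_le_one
  | succ t ih =>
    have h := hB k L (MA_D J y R L) (MA_U J y R L t) Set.univ (fun K hK => hK.1)
      (MA_U_sub J y R L t) (Loc.univ _) (Mon.univ _)
    rw [Set.univ_inter, Set.univ_inter] at h
    have e : (Ev fun c => ∃ M ∈ MA_U J y R L (t + 1), ∀ v ∈ M, c v = k) ⊆
        (Ev fun c => ∃ K ∈ MA_D J y R L, ∃ K' ∈ MA_U J y R L t, Disjoint K K' ∧
          (∀ v ∈ K, c v = k) ∧ ∀ v ∈ K', c v = k) := by
      rintro b ⟨M, ⟨K, hK, K', hK', hd, hM⟩, hc⟩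
      exact ⟨K, hK, K', hK', hd, fun v hv => hc v ((hM v).2 (Or.inl hv)),
        fun v hv => hc v ((hM v).2 (Or.inr hv))⟩
    have h1 : Pr (Ev fun c => ∃ M ∈ MA_U J y R L (t + 1), ∀ v ∈ M, c v = k) ≤
        Pr (Ev fun c => ∃ K ∈ MA_D J y R L, ∃ K' ∈ MA_U J y R L t, Disjoint K K' ∧
          (∀ v ∈ K, c v = k) ∧ ∀ v ∈ K', c v = k) := MA_Pr_mono e
    have h2 : 0 ≤ Pr (Ev fun c => ∃ K ∈ MA_D J y R L, ∀ v ∈ K, c v = k) := by
      unfold Pr
      exact measureReal_nonneg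
    calc _ ≤ _ := h1
      _ ≤ _ := h
      _ ≤ Pr (Ev fun c => ∃ K ∈ MA_D J y R L, ∀ v ∈ K, c v = k) *
          Pr (Ev fun c => ∃ K ∈ MA_D J y R L, ∀ v ∈ K, c v = k) ^ t :=
        mul_le_mul_of_nonneg_left ih h2
      _ = _ := by rw [pow_succ]; ring

theorem MA (hB : Bbk_stmt) (hLH : LH_stmt) : MA_stmt := by
  classical
  intro c₀ l R t y k H J _ hc hJ hR _ hH
  have hfin : H.Finite := (box_finite y R).subset hH
  set L : Finset V := hfin.toFinset with hL
  have hLm : ∀ v, v ∈ L ↔ v ∈ H := fun v => by simp [hL]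
  have hsub : (Ev fun c => Multi c k H J y R t) ⊆
      (Ev fun c => ∃ M ∈ MA_U J y R L t, ∀ v ∈ M, c v = k) := by
    rintro b ⟨u, h1, h2⟩
    set c := col b with hcdef
    have key : ∀ s ≤ t, ∃ M ∈ MA_U J y R L s, (∀ v ∈ M, c v = k) ∧
        ∀ v ∈ M, ∃ i < s, Conn c k H (u i) v := by
      intro s
      induction s with
      | zero =>
        intro _
        exact ⟨∅, rfl, by simp, by simp⟩
      | succ s ih =>
        intro hs
        obtain ⟨M, hM, hM1, hM2⟩ := ih (by omega)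
        obtain ⟨hu, z, hz, hcon⟩ := h1 s (by omega)
        set K : Finset V := L.filter fun v => Conn c k H (u s) v with hK
        have hKm : ∀ v, v ∈ K ↔ Conn c k H (u s) v := by
          intro v
          rw [hK, Finset.mem_filter, hLm]
          exact ⟨fun h => h.2, fun h => ⟨h.mem_right, h⟩⟩
        refine ⟨K ∪ M, ⟨K, ⟨Finset.filter_subset _ _, u s, hu, z, hz, ?_⟩, M, hM, ?_, ?_⟩, ?_, ?_⟩
        · refine Con.mono ?_ (MA_cluster hcon)
          intro v hv
          exact (hKm v).2 hv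
        · rw [Finset.disjoint_left]
          intro v hv hv'
          obtain ⟨i, hi, hiv⟩ := hM2 v hv'
          exact h2 s (by omega) i (by omega) (by omega) (((hKm v).1 hv).trans hiv.symm)
        · intro v
          exact Finset.mem_union
        · intro v hv
          rcases Finset.mem_union.1 hv with h | h
          · exact ((hKm v).1 h).colour_right
          · exact hM1 v h
        · intro v hv
          rcases Finset.mem_union.1 hv with h | h
          · exact ⟨s, by omega, (hKm v).1 h⟩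
          · obtain ⟨i, hi, hiv⟩ := hM2 v h
            exact ⟨i, by omega, hiv⟩
    obtain ⟨M, hM, hM1, -⟩ := key t le_rfl
    exact ⟨M, hM, hM1⟩
  have h1 : Pr (Ev fun c => Multi c k H J y R t) ≤
      Pr (Ev fun c => ∃ M ∈ MA_U J y R L t, ∀ v ∈ M, c v = k) := MA_Pr_mono hsub
  have h2 : 0 ≤ Pr (Ev fun c => ∃ K ∈ MA_D J y R L, ∀ v ∈ K, c v = k) := by
    unfold Pr
    exact measureReal_nonneg
  exact h1.trans ((MA_pow hB y R k J L t).trans
    (pow_le_pow_left₀ h2 (MA_one hLH c₀ l R y k J L hc hJ hR) t))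

end DP
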